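import Mathlib
import Pool.Agent.W497.Mld.Main

/-!
# MP_c79307_ag, Q1: no bounded extractable divisors computing minimal log discrepancies

We disprove the statement of Q1, in dimension `24` and for coefficients in `Γ = {3/4}`: there is a
log canonical pair `(X ∋ P, B)` on the affine space of dimension `24`, with minimal log discrepancy
`14`, for which no prime divisor over `X ∋ P` that computes the minimal log discrepancy is the
exceptional divisor of a divisorial contraction, with or without a bound on `a(E, X, 0)`. For the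
example, see `Pool.Agent.W497.Mld.Main`.

The definitions are in `Pool.Agent.W497.Mld.Defs`, `Pool.Agent.H436R3.KT.Defs` and
`Pool.Agent.H436R3.Fol.Defs`.
-/

set_option autoImplicit false
set_option maxSynthPendingDepth 4

namespace Pool.Agent.Results.MP_c79307_ag.MldNoBoundedContraction

open Pool.Agent.H436R3.Fol Pool.Agent.H436R3.KT Pool.Agent.W497.Mld

/-- For some `d` and some (finite) set `Γ ⊆ [0, 1]` with the descending chain condition, for every
real number `l`, there is a log canonical pair `(X ∋ P, B)` of dimension `d`, with `X` smooth, hence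
klt, `B ∈ Γ` and `mld (X ∋ P, B) ≥ 1`, such that no prime divisor `E` over `X ∋ P` is the
exceptional divisor of a divisorial contraction to `X`, or to some principal open neighbourhood of
`P`, with `a(E, X, B) = mld (X ∋ P, B)` and `a(E, X, 0) ≤ l`. -/
theorem result : ∃ (d : ℕ) (Γ : Set ℝ), Γ.Finite ∧ Γ ⊆ Set.Icc 0 1 ∧ IsDCC Γ ∧ ∀ l : ℝ,
    ∃ (K : Type) (_ : Field K) (_ : Algebra ℂ K) (X : AffVar K) (P : Pt X)
      (B : EffDiv X) (e : LocEq B P) (e₀ : LocEq (zeroDiv X) P) (m : ℝ),
      IsAffineSpace X d ∧ IsNormal X ∧ (∀ Q : Pt X, IsKltPt Q) ∧ (∀ Q : Pt X, IsLcAt B Q) ∧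
      CoeffIn B Γ ∧ IsMld e m ∧ 1 ≤ m ∧
      ¬ ∃ v, IsOverGerm P v ∧ (IsExtractable X v ∨ ∃ U, IsNbhd P U ∧ IsExtractable U v) ∧
        IsLogDisc e v m ∧ ∃ a, IsLogDisc e₀ v a ∧ a ≤ l := by
  let K := FractionRing (MvPolynomial Ix ℂ)
  let e : Fin 24 ≃ Ix := (Fintype.equivFinOfCardEq card_Ix).symm
  refine ⟨24, {3 / 4}, Set.finite_singleton _, ?_, ?_, fun l => ⟨K, inferInstance, inferInstance,
    affVar K e, orig e, Bd e, eqB e (orig e), eq0 e (orig e), 14, isAffineSpace e,
    affVar_normal e, klt_all e, lc_all e, coeff_in e, mld_eq e, by norm_num, ?_⟩⟩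
  · rintro _ rfl
    constructor <;> norm_num
  · intro x hx h
    have h1 := h (show (0 : ℕ) < 1 by norm_num)
    rw [hx 0, hx 1] at h1
    exact lt_irrefl _ h1
  · rintro ⟨v, hv, hext, hd, _⟩
    have h1 := mld_unique e hv hd
    rcases hext with h2 | ⟨U, hU, h2⟩
    · exact not_extractable' e h1 h2
    · exact not_extractable e h1 hU h2

end Pool.Agent.Results.MP_c79307_ag.MldNoBoundedContraction
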